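import Pool.Agent.P.MP_ecb9f8_pr.Final2

open MeasureTheory ProbabilityTheory Filter

namespace Pool.Agent.FPP.OldShiftedLaws

/-- Length-independent coalescence, with no assumption on the limit shape, for the law of `X + M`
whenever `X` has a law `G` as in the problem and `M` is large enough. -/
theorem result :
    ∃ α₁ α₂ : ℝ, 0 < α₁ ∧ 0 < α₂ ∧
      ∀ G : Measure ℝ, IsProbabilityMeasure G → G (Set.Iio 0) = 0 →
        (∃ a : ℝ, 0 < a ∧ Integrable (fun x : ℝ => Real.exp (a * x)) G) →
        G ≪ volume →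
        ∃ M₀ : ℝ, ∀ M : ℝ, M₀ ≤ M →
        ∃ C : ℝ, 0 < C ∧
          ∀ (Ω : Type) [MeasureSpace Ω] [IsProbabilityMeasure (volume : Measure Ω)]
            (t : Sym2 (ℤ × ℤ) → Ω → ℝ),
            (∀ e, Measurable (t e)) →
            iIndepFun t (μ := (volume : Measure Ω)) →
            (∀ e, Measure.map (t e) (volume : Measure Ω) = Measure.map (fun x => x + M) G) →
            ∀ n h : ℕ, 0 < n → 0 < h →
              (volume : Measure Ω)
                {ω | ∃ p : (SimpleGraph.boxProd (SimpleGraph.hasse ℤ) (SimpleGraph.hasse ℤ)).Walk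
                        ((0 : ℤ), (0 : ℤ)) ((n : ℤ), (0 : ℤ)),
                      ∃ q : (SimpleGraph.boxProd (SimpleGraph.hasse ℤ) (SimpleGraph.hasse ℤ)).Walk
                        ((0 : ℤ), (0 : ℤ)) ((n : ℤ), (h : ℤ)),
                      (∀ p' : (SimpleGraph.boxProd (SimpleGraph.hasse ℤ) (SimpleGraph.hasse ℤ)).Walk
                          ((0 : ℤ), (0 : ℤ)) ((n : ℤ), (0 : ℤ)),
                        (p.edges.map (fun e => t e ω)).sum ≤ (p'.edges.map (fun e => t e ω)).sum) ∧
                      (∀ q' : (SimpleGraph.boxProd (SimpleGraph.hasse ℤ) (SimpleGraph.hasse ℤ)).Walk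
                          ((0 : ℤ), (0 : ℤ)) ((n : ℤ), (h : ℤ)),
                        (q.edges.map (fun e => t e ω)).sum ≤ (q'.edges.map (fun e => t e ω)).sum) ∧
                      (h : ℝ) ^ α₁ ≤ ((symmDiff p.edges.toFinset q.edges.toFinset).card : ℝ)}
                ≤ ENNReal.ofReal (C * (h : ℝ) ^ (-α₂)) :=
  Pool.Agent.FPP.final_shift

end Pool.Agent.FPP.OldShiftedLaws
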